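import Mathlib
import Pool.Agent.Q31.GLV.Stm

/-!
# Project GLV (helper31), JOB T5
-/

set_option autoImplicit false

namespace Pool.Agent.Q121.GLV

open Pool.Agent.Q31.GLV
open Module Cardinal Submodule

/-- splitting of a space of infinite rank -/
theorem split {F V : Type} [Field F] [AddCommGroup V] [Module F V] (D : Submodule F V)
    (h : ℵ₀ ≤ Module.rank F D) : ∃ D₁ D₂ : Submodule F V, D₁ ⊔ D₂ = D ∧ Disjoint D₁ D₂ ∧
      Module.rank F D₁ = Module.rank F D ∧ Module.rank F D₂ = Module.rank F D := by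
  have hr : Module.rank F D = Module.rank F (D × D) := by
    rw [rank_prod']
    exact (Cardinal.add_eq_self h).symm
  obtain ⟨φ⟩ := nonempty_linearEquiv_of_rank_eq hr
  let E₁ : D →ₗ[F] V := D.subtype ∘ₗ (φ.symm : (D × D) →ₗ[F] D) ∘ₗ LinearMap.inl F D D
  let E₂ : D →ₗ[F] V := D.subtype ∘ₗ (φ.symm : (D × D) →ₗ[F] D) ∘ₗ LinearMap.inr F D D
  have e1 : ∀ x, E₁ x = (φ.symm (x, 0) : V) := fun x => rfl
  have e2 : ∀ x, E₂ x = (φ.symm (0, x) : V) := fun x => rfl
  have i1 : Function.Injective E₁ := by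
    intro x y hxy
    rw [e1, e1] at hxy
    have h1 := φ.symm.injective (Subtype.ext hxy)
    exact (Prod.ext_iff.1 h1).1
  have i2 : Function.Injective E₂ := by
    intro x y hxy
    rw [e2, e2] at hxy
    have h1 := φ.symm.injective (Subtype.ext hxy)
    exact (Prod.ext_iff.1 h1).2
  refine ⟨LinearMap.range E₁, LinearMap.range E₂, ?_, ?_, ?_, ?_⟩
  · apply le_antisymm
    · rw [sup_le_iff]
      constructor
      · rintro _ ⟨x, rfl⟩
        exact (φ.symm (x, 0)).2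
      · rintro _ ⟨x, rfl⟩
        exact (φ.symm (0, x)).2
    · intro v hv
      rw [Submodule.mem_sup]
      refine ⟨E₁ (φ ⟨v, hv⟩).1, ⟨_, rfl⟩, E₂ (φ ⟨v, hv⟩).2, ⟨_, rfl⟩, ?_⟩
      rw [e1, e2, ← Submodule.coe_add, ← map_add]
      have h1 : ((φ ⟨v, hv⟩).1, (0 : D)) + ((0 : D), (φ ⟨v, hv⟩).2) = φ ⟨v, hv⟩ := by
        ext <;> simp
      rw [h1, LinearEquiv.symm_apply_apply]
  · rw [Submodule.disjoint_def]
    rintro v ⟨x, hx⟩ ⟨y, hy⟩
    rw [e1] at hx
    rw [e2] at hy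
    have h1 := φ.symm.injective (Subtype.ext (hx.trans hy.symm))
    have h2 : x = 0 := (Prod.ext_iff.1 h1).1
    rw [h2] at hx
    rw [← hx]
    simp
  · exact (LinearEquiv.ofInjective E₁ i1).rank_eq.symm
  · exact (LinearEquiv.ofInjective E₂ i2).rank_eq.symm

/-- the choice of `C₃` -/
theorem choice {F V : Type} [Field F] [AddCommGroup V] [Module F V]
    (hV : ℵ₀ ≤ Module.rank F V) (U C K D : Submodule F V) (hUC : IsCompl U C)
    (hK : K ⊔ D = C) (hKD : Disjoint K D) (hD : Module.rank F D = Module.rank F V) :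
    ∃ C₃ : Submodule F V, K ≤ C₃ ∧ C₃ ≤ C ∧ Module.rank F C₃ = Module.rank F V ∧
      Module.rank F (V ⧸ (U ⊔ C₃)) = Module.rank F V := by
  obtain ⟨D₁, D₂, h1, h2, h3, h4⟩ := split D (by rw [hD]; exact hV)
  have hD₁D : D₁ ≤ D := by rw [← h1]; exact le_sup_left
  have hD₂D : D₂ ≤ D := by rw [← h1]; exact le_sup_right
  have hDC : D ≤ C := by rw [← hK]; exact le_sup_right
  have hKC : K ≤ C := by rw [← hK]; exact le_sup_left
  refine ⟨K ⊔ D₁, le_sup_left, sup_le hKC (hD₁D.trans hDC), ?_, ?_⟩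
  · apply le_antisymm (Submodule.rank_le _)
    rw [← hD, ← h3]
    exact Submodule.rank_mono le_sup_right
  · have hc : IsCompl (U ⊔ (K ⊔ D₁)) D₂ := by
      constructor
      · rw [Submodule.disjoint_def]
        intro x hx hx2
        obtain ⟨u, hu, w, hw, huw⟩ := Submodule.mem_sup.1 hx
        obtain ⟨k, hk, d, hd, hkd⟩ := Submodule.mem_sup.1 hw
        have hu0 : u = 0 := by
          apply (Submodule.disjoint_def.1 hUC.disjoint) u hu
          have e : u = x - w := by rw [← huw]; abel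
          rw [e, ← hkd]
          exact C.sub_mem (hDC (hD₂D hx2)) (C.add_mem (hKC hk) (hDC (hD₁D hd)))
        have hk0 : k = 0 := by
          apply (Submodule.disjoint_def.1 hKD) k hk
          have e : k = x - d := by rw [← huw, ← hkd, hu0]; abel
          rw [e]
          exact D.sub_mem (hD₂D hx2) (hD₁D hd)
        apply (Submodule.disjoint_def.1 h2) x _ hx2
        rw [← huw, ← hkd, hu0, hk0, zero_add, zero_add]
        exact hd
      · rw [codisjoint_iff, sup_assoc, sup_assoc, h1, hK]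
        exact hUC.sup_eq_top
    rw [(Submodule.quotientEquivOfIsCompl _ _ hc).rank_eq, h4, hD]

theorem t_T5 (hT5A : S_T5A) (hTA : S_TA) (hLA : S_LA) : S_T5 := by
  intro F V _ _ _ hV hμ H hH U hU hNT t ht
  obtain ⟨C, hUC, hC⟩ := hT5A F V hV hμ H hH U hU hNT
  obtain ⟨hTA1, hTA2⟩ := hTA F V hV H U hU hNT
  have hCr : Module.rank F C = Module.rank F V := by
    rw [← (Submodule.quotientEquivOfIsCompl _ _ hUC).rank_eq]
    exact hU.2
  -- first map
  obtain ⟨C₁, -, hC₁C, hC₁r, hC₁q⟩ := choice hV U C ⊥ C hUC (by rw [bot_sup_eq]) disjoint_bot_left hCr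
  obtain ⟨τ₁, hτ₁, hτ₁i⟩ := hC C₁ hC₁C hC₁r hC₁q
  -- the kernel
  let K : Submodule F V := LinearMap.ker τ₁ ⊓ C
  have hKC : K ≤ C := inf_le_right
  have hC₁K : Disjoint C₁ K := by
    rw [Submodule.disjoint_def]
    intro x hx hxK
    exact hτ₁i x hx (LinearMap.mem_ker.1 hxK.1)
  obtain ⟨D', hC₁D', hD'⟩ := hC₁K.exists_isCompl
  have hKD : K ⊔ D' ⊓ C = C := by
    rw [← sup_inf_assoc_of_le D' hKC, sup_comm, hD'.sup_eq_top, top_inf_eq]
  have hKD2 : Disjoint K (D' ⊓ C) := hD'.disjoint.symm.mono_right inf_le_left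
  have hDr : Module.rank F (D' ⊓ C : Submodule F V) = Module.rank F V := by
    apply le_antisymm (Submodule.rank_le _)
    calc Module.rank F V = Module.rank F C₁ := hC₁r.symm
      _ ≤ Module.rank F (D' ⊓ C : Submodule F V) := Submodule.rank_mono (le_inf hC₁D' hC₁C)
  obtain ⟨C₃, hKC₃, hC₃C, hC₃r, hC₃q⟩ := choice hV U C K (D' ⊓ C) hUC hKD hKD2 hDr
  obtain ⟨τ₃, hτ₃, hτ₃i⟩ := hC C₃ hC₃C hC₃r hC₃q
  -- common kernel
  have hker : ∀ v : V, τ₁ v = 0 → τ₃ v = 0 → v ∈ U := by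
    intro v h1 h3
    have hv : v ∈ U ⊔ C := by rw [hUC.sup_eq_top]; exact Submodule.mem_top
    obtain ⟨u, hu, c, hc, huc⟩ := Submodule.mem_sup.1 hv
    have a1 : τ₁ u = 0 := hτ₁.1 ⟨u, hu⟩
    have a3 : τ₃ u = 0 := hτ₃.1 ⟨u, hu⟩
    have b1 : τ₁ c = 0 := by
      rw [← huc, map_add, a1, zero_add] at h1
      exact h1
    have b3 : τ₃ c = 0 := by
      rw [← huc, map_add, a3, zero_add] at h3
      exact h3
    have hcK : c ∈ K := ⟨LinearMap.mem_ker.2 b1, hc⟩
    have hc0 : c = 0 := hτ₃i c (hKC₃ hcK) b3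
    rw [← huc, hc0, add_zero]
    exact hu
  -- the map of `t`
  let τ : V →ₗ[F] U := LinearMap.codRestrict U ((t : V →ₗ[F] V) - LinearMap.id) (fun v => by
    rw [LinearMap.sub_apply, LinearMap.id_apply]
    exact ht.2 v)
  have hτ : ∀ v, ((τ v : U) : V) = t v - v := fun v => rfl
  have hτU : ∀ u ∈ U, τ u = 0 := by
    intro u hu
    apply Subtype.ext
    rw [hτ, ht.1 u hu, sub_self]
    rfl
  obtain ⟨e₁, e₃, he⟩ := hLA F V U τ₁ τ₃ τ (fun v h1 h3 => hτU v (hker v h1 h3))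
  have hIn : InT H U τ := by
    rw [he]
    exact hTA1 _ _ (hTA2 τ₁ e₁ hτ₁) (hTA2 τ₃ e₃ hτ₃)
  obtain ⟨-, t', ht', htt⟩ := hIn
  have heq : t = t' := by
    apply LinearEquiv.ext
    intro v
    rw [htt v, hτ]
    abel
  rw [heq]
  exact ht'

end Pool.Agent.Q121.GLV
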