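import Mathlib
import Pool.Agent.Q31.GLV.Stm

/-!
# Project GLV (helper31), JOB TA
-/

set_option autoImplicit false

namespace Pool.Agent.Q121.GLV.TA

open Pool.Agent.Q31.GLV
open Module Cardinal Submodule

variable {F V : Type} [Field F] [AddCommGroup V] [Module F V]

theorem inT_add (H : Subgroup (V ≃ₗ[F] V)) (U : Submodule F V) (τ τ' : V →ₗ[F] U)
    (h : InT H U τ) (h' : InT H U τ') : InT H U (τ + τ') := by
  obtain ⟨h0, t, ht, htt⟩ := h
  obtain ⟨h0', t', ht', htt'⟩ := h'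
  refine ⟨fun u => ?_, t * t', H.mul_mem ht ht', fun v => ?_⟩
  · rw [LinearMap.add_apply, h0, h0', add_zero]
  · show t (t' v) = _
    rw [htt', htt, map_add, h0 (τ' v), add_zero, LinearMap.add_apply, Submodule.coe_add]
    abel

theorem inT_conj (H : Subgroup (V ≃ₗ[F] V)) (U : Submodule F V) (hN : NT H U) (τ : V →ₗ[F] U)
    (h : InT H U τ) (y : U ≃ₗ[F] U) : InT H U ((y : U →ₗ[F] U) ∘ₗ τ) := by
  obtain ⟨h0, t, ht, htt⟩ := h
  obtain ⟨k, hk, hk1, hk2⟩ := hN y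
  refine ⟨fun u => ?_, k * t * k⁻¹, H.mul_mem (H.mul_mem hk ht) (H.inv_mem hk), fun v => ?_⟩
  · rw [LinearMap.comp_apply, h0, map_zero]
  · obtain ⟨w, rfl⟩ := k.surjective v
    have e1 : (k * t * k⁻¹) (k w) = k (t w) := by
      show k (t (k.symm (k w))) = k (t w)
      rw [LinearEquiv.symm_apply_apply]
    have e2 : k w = w + ((⟨k w - w, hk2 w⟩ : U) : V) := by
      show k w = w + (k w - w)
      abel
    have e3 : τ (k w) = τ w := by
      rw [e2, map_add, h0, add_zero]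
    have e4 : (((y : U →ₗ[F] U) ∘ₗ τ) (k w) : U) = y (τ w) := by
      show y (τ (k w)) = y (τ w)
      rw [e3]
    rw [e1, htt, map_add, hk1, e4]

theorem t_TA (hSUM : S_SUM) : S_TA := by
  intro F V _ _ _ hV H U hU hN
  refine ⟨fun τ τ' h h' => inT_add H U τ τ' h h', fun τ e h => ?_⟩
  obtain ⟨a, b, c, d, habcd⟩ := hSUM F U (by rw [hU.1]; exact hV) e
  have he : e ∘ₗ τ = (((a : U →ₗ[F] U) ∘ₗ τ + (b : U →ₗ[F] U) ∘ₗ τ) + (c : U →ₗ[F] U) ∘ₗ τ) +
      (d : U →ₗ[F] U) ∘ₗ τ := by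
    apply LinearMap.ext
    intro v
    rw [LinearMap.comp_apply, habcd]
    rfl
  rw [he]
  exact inT_add H U _ _ (inT_add H U _ _ (inT_add H U _ _ (inT_conj H U hN τ h a)
    (inT_conj H U hN τ h b)) (inT_conj H U hN τ h c)) (inT_conj H U hN τ h d)

end Pool.Agent.Q121.GLV.TA
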